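import Pool.Agent.Helper98.RR.EqNorm

/-!
# Leaf B (MP_cc72b1_an, real function spaces): the conditional expectation as an operator
-/

set_option autoImplicit false
set_option linter.unusedSectionVars false

open MeasureTheory Filter Topology
open scoped ENNReal

namespace Pool.Agent.Helper60.RR

lemma BM.integrable {Ω : Type*} [MeasurableSpace Ω] {f : Ω → ℝ} (hf : BM f) (m : Measure Ω)
    [IsFiniteMeasure m] : Integrable f m := by
  obtain ⟨h1, C, hC⟩ := hf
  exact Integrable.of_bound h1.aestronglyMeasurable C (Eventually.of_forall hC)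

namespace Act

variable {Ω : Type*} [MeasurableSpace Ω] {E : Type*} [NormedAddCommGroup E] [NormedSpace ℝ E]
variable {R : Act Ω E}

/-- the sign of a function -/
noncomputable def sg (f : Ω → ℝ) : Ω → ℝ := fun ω => if 0 ≤ f ω then 1 else -1

lemma sg_bm {f : Ω → ℝ} (hf : Measurable f) : BM (sg f) := by
  refine ⟨Measurable.ite (measurableSet_le measurable_const hf) measurable_const measurable_const, 1,
    fun ω => ?_⟩
  unfold sg
  split_ifs <;> simp

lemma sg_le (f : Ω → ℝ) (ω : Ω) : ‖sg f ω‖ ≤ 1 := by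
  unfold sg
  split_ifs <;> simp

lemma sg_mul (f : Ω → ℝ) : sg f * f = fun ω => |f ω| := by
  funext ω
  simp only [Pi.mul_apply, sg]
  split_ifs with h
  · rw [one_mul, abs_of_nonneg h]
  · rw [abs_of_neg (not_le.1 h), neg_one_mul]

lemma sg_abs (f : Ω → ℝ) : (sg f * fun ω => |f ω|) = f := by
  funext ω
  simp only [Pi.mul_apply, sg]
  split_ifs with h
  · rw [one_mul, abs_of_nonneg h]
  · rw [abs_of_neg (not_le.1 h)]; ring

lemma bm_abs {f : Ω → ℝ} (hf : BM f) : BM (fun ω => |f ω|) := by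
  obtain ⟨h1, C, hC⟩ := hf
  refine ⟨h1.abs, C, fun ω => ?_⟩
  rw [Real.norm_eq_abs, abs_abs]
  exact hC ω

lemma M_sub {f g : Ω → ℝ} (hf : BM f) (hg : BM g) (y : E) :
    R.M (f - g) y = R.M f y - R.M g y := by
  have h := R.add (hf.sub hg) hg
  rw [sub_add_cancel] at h
  rw [h]
  simp

namespace Pack

variable {x : E} {χ : E →L[ℝ] ℝ} {m : Measure Ω}

lemma congr (h : R.Pack x χ m) {f g : Ω → ℝ} (hf : BM f) (hg : BM g) (hfg : f =ᵐ[m] g) :
    R.M f x = R.M g x := by
  set C : Set Ω := {ω | f ω ≠ g ω} with hC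
  have hCm : MeasurableSet C := (measurableSet_eq_fun hf.1 hg.1).compl
  have hC0 : m C = 0 := hfg
  have h1 : R.P C x = 0 := h.faith C hCm hC0
  have h2 : C.indicator (f - g) = f - g := by
    funext ω
    by_cases hω : ω ∈ C
    · rw [Set.indicator_of_mem hω]
    · rw [Set.indicator_of_notMem hω]
      have : f ω = g ω := by
        by_contra hne; exact hω hne
      simp [this]
  have h3 := R.M_mul_ind' hCm (hf.sub hg) x
  rw [h1, map_zero, h2, M_sub hf hg] at h3
  exact (sub_eq_zero.1 h3.symm)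

lemma ae_zero (h : R.Pack x χ m) {f : Ω → ℝ} (hf : BM f) (h0 : R.M f x = 0) : f =ᵐ[m] 0 := by
  have _ := h.fin
  have h1 : R.M (fun ω => |f ω|) x = 0 := by
    rw [← sg_mul f, R.mul (sg_bm hf.1) hf, h0, map_zero]
  have h2 := h.int _ (bm_abs hf)
  rw [h1, map_zero] at h2
  have h3 := (integral_eq_zero_iff_of_nonneg (fun ω => abs_nonneg (f ω))
    ((bm_abs hf).integrable m)).1 h2.symm
  filter_upwards [h3] with ω hω
  simpa using hω

/-- pull-out property -/
lemma pull (h : R.Pack x χ m) {w f g : Ω → ℝ} (hw : Measurable[R.mB] w)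
    (hwf : Integrable (w * f) m) (hf : BM f) (hg : g =ᵐ[m] m[f|R.mB]) :
    ∫ ω, w ω * f ω ∂m = ∫ ω, w ω * g ω ∂m := by
  have _ := h.fin
  have h1 := condExp_mul_of_stronglyMeasurable_left (m := R.mB) (μ := m)
    (hw.stronglyMeasurable) hwf (hf.integrable m)
  have h2 : ∫ ω, (m[w * f|R.mB]) ω ∂m = ∫ ω, (w * f) ω ∂m := integral_condExp R.mB_le
  calc ∫ ω, w ω * f ω ∂m = ∫ ω, (m[w * f|R.mB]) ω ∂m := h2.symm
    _ = ∫ ω, (w * m[f|R.mB]) ω ∂m := integral_congr_ae h1
    _ = ∫ ω, w ω * g ω ∂m := by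
      refine integral_congr_ae ?_
      filter_upwards [hg] with ω hω
      rw [Pi.mul_apply, hω]

end Pack

/-- bounded representative of the conditional expectation -/
lemma Pack.exists_ce {x : E} {χ : E →L[ℝ] ℝ} {m : Measure Ω} (h : R.Pack x χ m)
    {f : Ω → ℝ} (hf : BM f) : ∃ g : Ω → ℝ, BM g ∧ Measurable[R.mB] g ∧ g =ᵐ[m] m[f|R.mB] := by
  have _ := h.fin
  obtain ⟨hf1, C, hC⟩ := hf
  have hC' : ∀ᵐ ω ∂m, |f ω| ≤ (Real.toNNReal (max C 0) : ℝ) := Eventually.of_forall fun ω => by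
    rw [Real.coe_toNNReal _ (le_max_right _ _)]
    exact (hC ω).trans (le_max_left _ _)
  have hb := ae_bdd_condExp_of_ae_bdd (m := R.mB) hC'
  rw [Real.coe_toNNReal _ (le_max_right _ _)] at hb
  set K := max C 0 with hK
  have hm : Measurable[R.mB] (m[f|R.mB]) := stronglyMeasurable_condExp.measurable
  set g : Ω → ℝ := fun ω => max (-K) (min K ((m[f|R.mB]) ω)) with hg
  have hgm : Measurable[R.mB] g :=
    (@measurable_const _ _ _ R.mB (-K)).max ((@measurable_const _ _ _ R.mB K).min hm)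
  have hK0 : 0 ≤ K := le_max_right _ _
  refine ⟨g, ⟨hgm.mono R.mB_le le_rfl, K, fun ω => ?_⟩, hgm, ?_⟩
  · rw [Real.norm_eq_abs, abs_le]
    exact ⟨le_max_left _ _, max_le (by linarith) (min_le_left _ _)⟩
  · filter_upwards [hb] with ω hω
    rw [abs_le] at hω
    rw [hg]
    dsimp only
    rw [min_eq_right hω.2, max_eq_right hω.1]

/-- the conditional expectation is a contraction -/
lemma Pack.ce_le {x : E} {χ : E →L[ℝ] ℝ} {m : Measure Ω} (h : R.Pack x χ m)
    {f g : Ω → ℝ} (hf : BM f) (hg : BM g) (hfg : g =ᵐ[m] m[f|R.mB]) :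
    ‖R.M g x‖ ≤ ‖R.M f x‖ := by
  have _ := h.fin
  obtain ⟨g0, hg0, hgm, hg1⟩ := h.exists_ce hf
  rw [h.congr hg hg0 (hfg.trans hg1.symm)]
  have hb : BM ((2 : ℝ) • g0 - f) := (hg0.smul 2).sub hf
  have he : ‖R.M f x‖ = ‖R.M ((2 : ℝ) • g0 - f) x‖ := by
    refine h.eqnorm hf hb fun B hB => ?_
    have hBm : MeasurableSet B := hB.1
    have hp := h.pull (w := B.indicator g0) (f := f) (g := g0) (hgm.indicator hB)
      (((hg0.indicator hBm).mul hf).integrable m) hf hg1
    have h1 : ∀ u : Ω → ℝ, ∫ ω, B.indicator g0 ω * u ω ∂m = ∫ ω in B, g0 ω * u ω ∂m := by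
      intro u
      rw [← integral_indicator hBm]
      congr 1
      funext ω
      by_cases hω : ω ∈ B <;> simp [hω]
    rw [h1, h1] at hp
    have i1 : Integrable (fun ω => f ω ^ 2) m := by
      have := (hf.mul hf).integrable m
      refine this.congr (Eventually.of_forall fun ω => ?_)
      simp [sq]
    have i2 : Integrable (fun ω => g0 ω * g0 ω) m := (hg0.mul hg0).integrable m
    have i3 : Integrable (fun ω => g0 ω * f ω) m := (hg0.mul hf).integrable m
    have h2 : ∫ ω in B, ((2 : ℝ) • g0 - f) ω ^ 2 ∂m =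
        ∫ ω in B, (f ω ^ 2 + (4 * (g0 ω * g0 ω) - 4 * (g0 ω * f ω))) ∂m := by
      refine integral_congr_ae (Eventually.of_forall fun ω => ?_)
      simp only [Pi.sub_apply, Pi.smul_apply, smul_eq_mul]
      ring
    have h3 : ∫ ω in B, (f ω ^ 2 + (4 * (g0 ω * g0 ω) - 4 * (g0 ω * f ω))) ∂m =
        ∫ ω in B, f ω ^ 2 ∂m + ∫ ω in B, (4 * (g0 ω * g0 ω) - 4 * (g0 ω * f ω)) ∂m :=
      integral_add i1.integrableOn ((i2.const_mul 4).sub (i3.const_mul 4)).integrableOn
    have h4 : ∫ ω in B, (4 * (g0 ω * g0 ω) - 4 * (g0 ω * f ω)) ∂m =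
        ∫ ω in B, 4 * (g0 ω * g0 ω) ∂m - ∫ ω in B, 4 * (g0 ω * f ω) ∂m :=
      integral_sub (i2.const_mul 4).integrableOn (i3.const_mul 4).integrableOn
    rw [h2, h3, h4, integral_const_mul, integral_const_mul, hp]
    ring
  have h3 : (2 : ℝ) • R.M g0 x = R.M f x + R.M ((2 : ℝ) • g0 - f) x := by
    rw [M_sub (hg0.smul 2) hf, R.smul 2 hg0]
    simp
  have h4 : 2 * ‖R.M g0 x‖ ≤ ‖R.M f x‖ + ‖R.M ((2 : ℝ) • g0 - f) x‖ := by
    have := norm_add_le (R.M f x) (R.M ((2 : ℝ) • g0 - f) x)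
    rw [← h3, norm_smul, Real.norm_eq_abs, abs_of_pos two_pos] at this
    exact this
  linarith

/-- the bounded measurable functions -/
def bms (Ω : Type*) [MeasurableSpace Ω] : Submodule ℝ (Ω → ℝ) where
  carrier := {f | BM f}
  add_mem' := fun hf hg => BM.add hf hg
  zero_mem' := BM.const 0
  smul_mem' := fun c _ hf => BM.smul c hf

/-- the operator -/
theorem Pack.exists_EE [CompleteSpace E] {x : E} {χ : E →L[ℝ] ℝ} {m : Measure Ω}
    (h : R.Pack x χ m) : ∃ EE : E →L[ℝ] E, ∀ f g : Ω → ℝ, BM f → BM g → g =ᵐ[m] m[f|R.mB] →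
      EE (R.M f x) = R.M g x := by
  have _ := h.fin
  choose! c hc1 hc2 hc3 using fun f (hf : BM f) => h.exists_ce hf
  let e : bms Ω →ₗ[ℝ] E :=
    { toFun := fun f => R.M f.1 x
      map_add' := fun f g => by
        change R.M (f.1 + g.1) x = _
        rw [R.add f.2 g.2]; rfl
      map_smul' := fun t f => by
        change R.M (t • f.1) x = _
        rw [R.smul t f.2]; rfl }
  let F : bms Ω →ₗ[ℝ] E :=
    { toFun := fun f => R.M (c f.1) x
      map_add' := fun f g => by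
        change R.M (c (f.1 + g.1)) x = R.M (c f.1) x + R.M (c g.1) x
        have h1 : c (f.1 + g.1) =ᵐ[m] c f.1 + c g.1 := by
          refine (hc3 _ (f.2.add g.2)).trans ((condExp_add (f.2.integrable m)
            (g.2.integrable m) R.mB).trans ?_)
          filter_upwards [hc3 _ f.2, hc3 _ g.2] with ω h1 h2
          rw [Pi.add_apply, Pi.add_apply, h1, h2]
        rw [h.congr (hc1 _ (f.2.add g.2)) ((hc1 _ f.2).add (hc1 _ g.2)) h1,
          R.add (hc1 _ f.2) (hc1 _ g.2)]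
        rfl
      map_smul' := fun t f => by
        change R.M (c (t • f.1)) x = t • R.M (c f.1) x
        have h1 : c (t • f.1) =ᵐ[m] t • c f.1 := by
          refine (hc3 _ (f.2.smul t)).trans ((condExp_smul t f.1 R.mB).trans ?_)
          filter_upwards [hc3 _ f.2] with ω h1
          rw [Pi.smul_apply, Pi.smul_apply, h1]
        rw [h.congr (hc1 _ (f.2.smul t)) ((hc1 _ f.2).smul t) h1, R.smul t (hc1 _ f.2)]
        rfl }
  have hd : DenseRange e := by
    intro y
    obtain ⟨g, hg, -, h2⟩ := h.unit.approx y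
    exact mem_closure_of_tendsto h2 (Eventually.of_forall fun n => ⟨⟨_, bm_sub hg n⟩, rfl⟩)
  have hn : ∃ C, ∀ f, ‖F f‖ ≤ C * ‖e f‖ :=
    ⟨1, fun f => by rw [one_mul]; exact h.ce_le f.2 (hc1 _ f.2) (hc3 _ f.2)⟩
  refine ⟨F.extendOfNorm e, fun f g hf hg hfg => ?_⟩
  have h1 := LinearMap.extendOfNorm_eq hd hn ⟨f, hf⟩
  change F.extendOfNorm e (R.M f x) = R.M (c f) x at h1
  rw [h1]
  exact h.congr (hc1 _ hf) hg ((hc3 _ hf).trans hfg.symm)

/-- an operator is skew if it is on a dense set, with one norming functional -/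
lemma skew_of_dense {D : E →L[ℝ] E} {S : Set E} (hS : Dense S)
    (h : ∀ y ∈ S, ∃ ψ : E →L[ℝ] ℝ, Norming y ψ ∧ ψ (D y) = 0) : Skew D := by
  have h1 : ∀ (t : ℝ) (y : E), ‖y‖ ≤ ‖y - t • D y‖ := by
    intro t y
    refine hS.induction (P := fun y => ‖y‖ ≤ ‖y - t • D y‖) ?_ ?_ y
    · intro y hy
      obtain ⟨ψ, hψ, h0⟩ := h y hy
      have := hψ.le (y - t • D y)
      rwa [map_sub, map_smul, h0, smul_zero, sub_zero, hψ.2] at this
    · exact isClosed_le continuous_norm
        ((continuous_id.sub (D.continuous.const_smul t)).norm)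
  intro f ψ hψ
  set s := ψ (D f) with hs
  have key : ∀ t : ℝ, t * s ≤ t ^ 2 * (‖D‖ ^ 2 * ‖f‖) := by
    intro t
    have h2 := h1 t (f + t • D f)
    have h3 : f + t • D f - t • D (f + t • D f) = f - (t * t) • D (D f) := by
      rw [map_add, map_smul, smul_add, smul_smul]
      abel
    rw [h3] at h2
    have h4 := hψ.le (f + t • D f)
    rw [map_add, map_smul, hψ.2, smul_eq_mul, ← hs] at h4
    have h5 : ‖f - (t * t) • D (D f)‖ ≤ ‖f‖ + t ^ 2 * (‖D‖ ^ 2 * ‖f‖) := by
      refine (norm_sub_le _ _).trans (add_le_add le_rfl ?_)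
      rw [norm_smul, Real.norm_eq_abs, abs_of_nonneg (mul_self_nonneg t), ← sq]
      refine mul_le_mul_of_nonneg_left ?_ (sq_nonneg t)
      calc ‖D (D f)‖ ≤ ‖D‖ * ‖D f‖ := D.le_opNorm _
        _ ≤ ‖D‖ * (‖D‖ * ‖f‖) := mul_le_mul_of_nonneg_left (D.le_opNorm _) (norm_nonneg _)
        _ = ‖D‖ ^ 2 * ‖f‖ := by ring
    linarith
  set K := ‖D‖ ^ 2 * ‖f‖ with hK
  have hK0 : 0 ≤ K := by positivity
  by_contra hne
  have h6 := key (s / (2 * (K + 1)))
  have hs2 : 0 < s ^ 2 := by positivity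
  have h7 : s / (2 * (K + 1)) * s = s ^ 2 / (2 * (K + 1)) := by ring
  have h8 : (s / (2 * (K + 1))) ^ 2 * K = s ^ 2 / (2 * (K + 1)) * (K / (2 * (K + 1))) := by
    field_simp
  rw [h7, h8] at h6
  have h9 : 0 < s ^ 2 / (2 * (K + 1)) := by positivity
  have h10 : K / (2 * (K + 1)) < 1 := by
    rw [div_lt_one (by positivity)]; linarith
  nlinarith

/-- commutators with multiplications are skew -/
theorem Pack.skew_comm [CompleteSpace E] {x : E} {χ : E →L[ℝ] ℝ} {m : Measure Ω}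
    (h : R.Pack x χ m) {EE : E →L[ℝ] E} (hEE : ∀ f g : Ω → ℝ, BM f → BM g →
      g =ᵐ[m] m[f|R.mB] → EE (R.M f x) = R.M g x) {a : Ω → ℝ} (ha : BM a) :
    Skew (EE.comp (R.M a) - (R.M a).comp EE) := by
  have _ := h.fin
  refine skew_of_dense (S := {y | ∃ f : Ω → ℝ, BM f ∧ (∃ δ : ℝ, 0 < δ ∧ ∀ ω, δ ≤ |f ω|) ∧
    y = R.M f x}) ?_ ?_
  · intro y
    rw [Metric.mem_closure_iff]
    intro ε hε
    obtain ⟨g, hg, -, h2⟩ := h.unit.approx y
    obtain ⟨n, hn⟩ := ((Metric.tendsto_atTop.1 h2) (ε / 2) (half_pos hε))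
    set f := {ω | ‖g ω‖ ≤ n}.indicator g with hf
    have hfb : BM f := bm_sub hg n
    set δ := ε / (8 * (‖x‖ + 1)) with hδ
    have hδ0 : 0 < δ := by positivity
    set b : Ω → ℝ := fun ω => if |f ω| < δ then δ else f ω with hb
    have hbb : BM b := by
      obtain ⟨h3, C, hC⟩ := hfb
      refine ⟨Measurable.ite (measurableSet_lt h3.abs measurable_const) measurable_const h3,
        max C δ, fun ω => ?_⟩
      rw [hb]
      dsimp only
      split_ifs
      · rw [Real.norm_eq_abs, abs_of_pos hδ0]; exact le_max_right _ _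
      · exact (hC ω).trans (le_max_left _ _)
    refine ⟨R.M b x, ⟨b, hbb, ⟨δ, hδ0, fun ω => ?_⟩, rfl⟩, ?_⟩
    · rw [hb]
      dsimp only
      split_ifs with hω
      · rw [abs_of_pos hδ0]
      · exact not_lt.1 hω
    · have h3 : ‖R.M (f - b) x‖ ≤ (2 * δ) * ‖x‖ := by
        refine R.norm_le (hfb.sub hbb) (fun ω => ?_) (by positivity) x
        rw [Pi.sub_apply, hb]
        dsimp only
        split_ifs with hω
        · rw [Real.norm_eq_abs]
          calc |f ω - δ| ≤ |f ω| + |δ| := abs_sub _ _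
            _ ≤ 2 * δ := by rw [abs_of_pos hδ0]; linarith
        · simp; positivity
      have h4 : (2 * δ) * ‖x‖ < ε / 2 := by
        rw [hδ]
        have : ε / (8 * (‖x‖ + 1)) * (4 * (‖x‖ + 1)) = ε / 2 := by field_simp; ring
        have h5 : 0 ≤ ‖x‖ := norm_nonneg x
        nlinarith
      have h5 := hn n le_rfl
      rw [dist_comm] at h5
      rw [M_sub hfb hbb] at h3
      calc dist y (R.M b x) ≤ dist y (R.M f x) + dist (R.M f x) (R.M b x) := dist_triangle _ _ _
        _ < ε / 2 + ε / 2 := add_lt_add h5 (by rw [dist_eq_norm]; linarith)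
        _ = ε := by ring
  · rintro y ⟨f, hf, ⟨δ, hδ, hfδ⟩, rfl⟩
    obtain ⟨C, hC⟩ := hf.2
    obtain ⟨ρ, φ, hρm, hρ0, hρi, hφ, hint⟩ := h.dual (w := fun ω => |f ω|) hf.1.abs hδ hfδ hC
    have hs := sg_bm hf.1
    -- the norming functional
    have hsn : ∀ y : E, ‖R.M (sg f) y‖ ≤ ‖y‖ := fun y => by
      have := R.norm_le hs (sg_le f) zero_le_one y
      rwa [one_mul] at this
    have e1 : R.M (sg f) (R.M f x) = R.M (fun ω => |f ω|) x := by
      rw [← R.mul hs hf, sg_mul]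
    have e2 : R.M (sg f) (R.M (fun ω => |f ω|) x) = R.M f x := by
      rw [← R.mul hs (bm_abs hf), sg_abs]
    have hnorm : ‖R.M (fun ω => |f ω|) x‖ = ‖R.M f x‖ := by
      refine le_antisymm ?_ ?_
      · rw [← e1]; exact hsn _
      · conv_lhs => rw [← e2]
        exact hsn _
    refine ⟨φ.comp (R.M (sg f)), ⟨?_, ?_⟩, ?_⟩
    · refine ContinuousLinearMap.opNorm_le_bound _ zero_le_one fun y => ?_
      rw [one_mul]
      exact (by simpa using φ.le_of_opNorm_le hφ.1 (R.M (sg f) y) :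
        ‖φ (R.M (sg f) y)‖ ≤ ‖R.M (sg f) y‖).trans (hsn y)
    · change φ (R.M (sg f) (R.M f x)) = _
      rw [e1, hφ.2, hnorm]
    · -- the value
      obtain ⟨u, hu, hum, hu1⟩ := h.exists_ce hf
      obtain ⟨v, hv, hvm, hv1⟩ := h.exists_ce (ha.mul hf)
      have e3 : (EE.comp (R.M a) - (R.M a).comp EE) (R.M f x) = R.M v x - R.M (a * u) x := by
        change EE (R.M a (R.M f x)) - R.M a (EE (R.M f x)) = _
        rw [← R.mul ha hf, hEE _ v (ha.mul hf) hv hv1, hEE f u hf hu hu1, ← R.mul ha hu]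
      have e4 : ∀ w : Ω → ℝ, BM w → φ (R.M (sg f) (R.M w x)) = ∫ ω, ρ ω * f ω * w ω ∂m := by
        intro w hw
        rw [← R.mul hs hw, hint _ (hs.mul hw)]
        refine integral_congr_ae (Eventually.of_forall fun ω => ?_)
        have := congrFun (sg_abs f) ω
        simp only [Pi.mul_apply] at this
        simp only [Pi.mul_apply]
        calc ρ ω * |f ω| * (sg f ω * w ω) = ρ ω * (sg f ω * |f ω|) * w ω := by ring
          _ = ρ ω * f ω * w ω := by rw [this]
      change φ (R.M (sg f) ((EE.comp (R.M a) - (R.M a).comp EE) (R.M f x))) = 0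
      rw [e3, map_sub, map_sub, e4 v hv, e4 _ (ha.mul hu)]
      have hi : ∀ w : Ω → ℝ, BM w → Integrable (ρ * w) m := by
        intro w hw
        obtain ⟨hw1, K, hK⟩ := hw
        exact hρi.mul_bdd hw1.aestronglyMeasurable (Eventually.of_forall hK)
      have p1 := h.pull (w := ρ * v) (f := f) (g := u) (hρm.mul hvm)
        (by rw [mul_assoc]; exact hi _ (hv.mul hf)) hf hu1
      have p2 := h.pull (w := ρ * u) (f := a * f) (g := v) (hρm.mul hum)
        (by rw [mul_assoc]; exact hi _ (hu.mul (ha.mul hf))) (ha.mul hf) hv1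
      simp only [Pi.mul_apply] at p1 p2 ⊢
      have q1 : ∫ ω, ρ ω * f ω * v ω ∂m = ∫ ω, ρ ω * v ω * f ω ∂m :=
        integral_congr_ae (Eventually.of_forall fun ω => by ring)
      have q2 : ∫ ω, ρ ω * f ω * (a ω * u ω) ∂m = ∫ ω, ρ ω * u ω * (a ω * f ω) ∂m :=
        integral_congr_ae (Eventually.of_forall fun ω => by ring)
      have q3 : ∫ ω, ρ ω * v ω * u ω ∂m = ∫ ω, ρ ω * u ω * v ω ∂m :=
        integral_congr_ae (Eventually.of_forall fun ω => by ring)
      rw [q1, q2, p1, p2, q3, sub_self]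

end Act
end Pool.Agent.Helper60.RR
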