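import Pool.Agent.Helper60.RR.VDef
import Pool.Agent.Helper60.RR.Base

/-!
# Leaf H2 (MP_cc72b1_an): the rotation in a plane of `H` is a skew operator
-/

set_option autoImplicit false
set_option linter.unusedSectionVars false

open MeasureTheory Filter Topology

namespace Pool.Agent.Helper60.RR

universe u v w

variable {Ω : Type v} [MeasurableSpace Ω] {μ : Measure Ω} {H : Type w} [NormedAddCommGroup H]
  [InnerProductSpace ℝ H] {E : Type u} [NormedAddCommGroup E] [NormedSpace ℝ E]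
  {j : E →ₗ[ℝ] (Ω →ₘ[μ] H)}

/-- the generator of the rotation -/
noncomputable def rotJ (e₁ e₂ : H) : H →L[ℝ] H :=
  (innerSL ℝ e₁).smulRight e₂ - (innerSL ℝ e₂).smulRight e₁

lemma rotJ_apply (e₁ e₂ v : H) : rotJ e₁ e₂ v = inner ℝ e₁ v • e₂ - inner ℝ e₂ v • e₁ := rfl

lemma rotJ_orth (e₁ e₂ v : H) : inner ℝ v (rotJ e₁ e₂ v) = 0 := by
  rw [rotJ_apply, inner_sub_right, inner_smul_right, inner_smul_right, real_inner_comm e₁ v,
    real_inner_comm e₂ v]
  ring

lemma norm_rotJ_le {e₁ e₂ : H} (h1 : ‖e₁‖ = 1) (h2 : ‖e₂‖ = 1) (h12 : inner ℝ e₁ e₂ = 0) (v : H) :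
    ‖rotJ e₁ e₂ v‖ ≤ ‖v‖ := by
  set a := inner ℝ e₁ v with ha
  set b := inner ℝ e₂ v with hb
  have h21 : inner ℝ e₂ e₁ = 0 := by rw [real_inner_comm]; exact h12
  have hJ : ‖rotJ e₁ e₂ v‖ ^ 2 = a ^ 2 + b ^ 2 := by
    rw [rotJ_apply, norm_sub_sq_real, norm_smul, norm_smul, inner_smul_left, inner_smul_right, h1,
      h2, h21, ← ha, ← hb]
    simp
  have hw : 0 ≤ ‖v - a • e₁ - b • e₂‖ ^ 2 := sq_nonneg _
  have hv : ‖v - a • e₁ - b • e₂‖ ^ 2 = ‖v‖ ^ 2 - (a ^ 2 + b ^ 2) := by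
    rw [norm_sub_sq_real, norm_sub_sq_real, norm_smul, norm_smul, inner_sub_left,
      inner_smul_right, inner_smul_right, inner_smul_right, inner_smul_left, h1, h2, h12,
      real_inner_comm e₁ v, real_inner_comm e₂ v, ← ha, ← hb]
    simp
    ring
  rw [hv] at hw
  refine (sq_le_sq₀ (norm_nonneg _) (norm_nonneg _)).1 ?_
  linarith

lemma norm_add_rotJ {e₁ e₂ : H} (h1 : ‖e₁‖ = 1) (h2 : ‖e₂‖ = 1) (h12 : inner ℝ e₁ e₂ = 0)
    (t : ℝ) (v : H) : ‖v + t • rotJ e₁ e₂ v‖ ≤ (1 + t ^ 2 / 2) * ‖v‖ := by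
  have h3 : ‖v + t • rotJ e₁ e₂ v‖ ^ 2 ≤ (1 + t ^ 2) * ‖v‖ ^ 2 := by
    rw [norm_add_sq_real, inner_smul_right, rotJ_orth, norm_smul, Real.norm_eq_abs, mul_pow, sq_abs]
    have h4 := norm_rotJ_le h1 h2 h12 v
    have h5 : ‖rotJ e₁ e₂ v‖ ^ 2 ≤ ‖v‖ ^ 2 := (sq_le_sq₀ (norm_nonneg _) (norm_nonneg _)).2 h4
    have h6 := mul_le_mul_of_nonneg_left h5 (sq_nonneg t)
    linarith
  refine (sq_le_sq₀ (norm_nonneg _) (by positivity)).1 (h3.trans ?_)
  rw [mul_pow]
  refine mul_le_mul_of_nonneg_right ?_ (sq_nonneg _)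
  nlinarith [sq_nonneg (t ^ 2)]

/-- LEAF H2: rotation in the plane of two orthonormal vectors of `H` -/
theorem IsVectorFunctionSpace.exists_skew (hj : IsVectorFunctionSpace μ j) {f : E} (hf : f ≠ 0)
    {e₁ e₂ : H} (h1 : ‖e₁‖ = 1) (h2 : ‖e₂‖ = 1) (h12 : inner ℝ e₁ e₂ = 0) :
    ∃ D : E →L[ℝ] E, Act.Skew D ∧ D ≠ 0 := by
  set J := rotJ e₁ e₂ with hJ
  have hex : ∀ g : E, ∃ h : E, j h = AEEqFun.comp J J.continuous (j g) ∧ ‖h‖ ≤ ‖g‖ := by
    intro g
    refine hj.solid g _ ?_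
    filter_upwards [AEEqFun.coeFn_comp J J.continuous (j g)] with ω hω
    rw [hω]
    exact norm_rotJ_le h1 h2 h12 _
  choose d hd1 hd2 using hex
  let D0 : E →ₗ[ℝ] E :=
    { toFun := d
      map_add' := fun a b => by
        apply hj.inj
        rw [map_add, hd1, hd1, hd1, map_add]
        refine AEEqFun.ext ?_
        filter_upwards [AEEqFun.coeFn_comp J J.continuous (j a + j b),
          AEEqFun.coeFn_add (AEEqFun.comp J J.continuous (j a)) (AEEqFun.comp J J.continuous (j b)),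
          AEEqFun.coeFn_comp J J.continuous (j a), AEEqFun.coeFn_comp J J.continuous (j b),
          AEEqFun.coeFn_add (j a) (j b)] with ω e1 e2 e3 e4 e5
        rw [e1, e2, Function.comp_apply, e5, Pi.add_apply, Pi.add_apply, e3, e4, map_add]
        rfl
      map_smul' := fun c a => by
        apply hj.inj
        rw [RingHom.id_apply, map_smul, hd1, hd1, map_smul]
        refine AEEqFun.ext ?_
        filter_upwards [AEEqFun.coeFn_comp J J.continuous (c • j a),
          AEEqFun.coeFn_smul c (AEEqFun.comp J J.continuous (j a)),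
          AEEqFun.coeFn_comp J J.continuous (j a), AEEqFun.coeFn_smul c (j a)] with ω e1 e2 e3 e4
        rw [e1, e2, Function.comp_apply, e4, Pi.smul_apply, Pi.smul_apply, e3, map_smul]
        rfl }
  let D : E →L[ℝ] E := D0.mkContinuous 1 fun g => by
    rw [one_mul]
    exact hd2 g
  have hD : ∀ g, D g = d g := fun g => rfl
  refine ⟨D, ?_, ?_⟩
  · intro g ψ hψ
    have hnorm : ∀ t : ℝ, ‖g + t • D g‖ ≤ (1 + t ^ 2 / 2) * ‖g‖ := by
      intro t
      obtain ⟨h, hh1, hh2⟩ := hj.solid ((1 + t ^ 2 / 2) • g) (j (g + t • D g)) (by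
        have e0 : j (g + t • D g) = j g + t • AEEqFun.comp J J.continuous (j g) := by
          rw [map_add, map_smul, hD, hd1]
        rw [e0, map_smul]
        filter_upwards [AEEqFun.coeFn_add (j g) (t • AEEqFun.comp J J.continuous (j g)),
          AEEqFun.coeFn_smul t (AEEqFun.comp J J.continuous (j g)),
          AEEqFun.coeFn_comp J J.continuous (j g),
          AEEqFun.coeFn_smul (1 + t ^ 2 / 2) (j g)] with ω e1 e2 e3 e4
        rw [e1, e4, Pi.add_apply, Pi.smul_apply, e2, Pi.smul_apply, e3, norm_smul,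
          Real.norm_eq_abs, abs_of_nonneg (by positivity)]
        exact norm_add_rotJ h1 h2 h12 t _)
      have hh3 : h = g + t • D g := hj.inj hh1
      rw [← hh3]
      refine hh2.trans (le_of_eq ?_)
      rw [norm_smul, Real.norm_eq_abs, abs_of_nonneg (by positivity)]
    set s := ψ (D g) with hs
    have key : ∀ t : ℝ, t * s ≤ t ^ 2 * (‖g‖ / 2) := by
      intro t
      have h3 := (hψ.le (g + t • D g)).trans (hnorm t)
      rw [map_add, map_smul, hψ.2, smul_eq_mul, ← hs] at h3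
      linarith
    set K := ‖g‖ / 2 with hK
    have hK0 : 0 ≤ K := by positivity
    by_contra hne
    have h6 := key (s / (2 * (K + 1)))
    have hs2 : 0 < s ^ 2 := by positivity
    have h7 : s / (2 * (K + 1)) * s = s ^ 2 / (2 * (K + 1)) := by ring
    have h8 : (s / (2 * (K + 1))) ^ 2 * K = s ^ 2 / (2 * (K + 1)) * (K / (2 * (K + 1))) := by
      field_simp
    rw [h7, h8] at h6
    have h9 : 0 < s ^ 2 / (2 * (K + 1)) := by positivity
    have h10 : K / (2 * (K + 1)) < 1 := by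
      rw [div_lt_one (by positivity)]; linarith
    nlinarith
  · intro h0
    apply hf
    have hc : Continuous fun v : H => ‖v‖ • e₁ := continuous_norm.smul continuous_const
    obtain ⟨k, hk1, -⟩ := hj.solid f (AEEqFun.comp (fun v : H => ‖v‖ • e₁) hc (j f)) (by
      filter_upwards [AEEqFun.coeFn_comp (fun v : H => ‖v‖ • e₁) hc (j f)] with ω hω
      rw [hω, Function.comp_apply, norm_smul, norm_norm, h1, mul_one])
    have h3 : d k = 0 := by
      rw [← hD, h0]; rfl
    have h4 : AEEqFun.comp J J.continuous (j k) = 0 := by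
      rw [← hd1, h3, map_zero]
    apply hj.inj
    rw [map_zero]
    refine AEEqFun.ext ?_
    have h5 : J e₁ = e₂ := by
      rw [hJ, rotJ_apply, real_inner_self_eq_norm_sq, h1, real_inner_comm, h12]
      simp
    filter_upwards [AEEqFun.coeFn_comp J J.continuous (j k),
      AEEqFun.coeFn_comp (fun v : H => ‖v‖ • e₁) hc (j f),
      AEEqFun.coeFn_zero (α := Ω) (μ := μ) (β := H)] with ω e1 e2 e3
    rw [h4, e3, Function.comp_apply, hk1, e2, Function.comp_apply, map_smul, h5] at e1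
    rw [e3]
    have h6 : ‖(j f : Ω → H) ω‖ = 0 := by
      have h7 := congrArg norm e1
      rw [Pi.zero_apply, norm_zero, norm_smul, norm_norm, h2, mul_one] at h7
      exact h7.symm
    rw [Pi.zero_apply]
    exact norm_eq_zero.1 h6

end Pool.Agent.Helper60.RR
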